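import Pool.Agent.helper57.P2.VSPa

/-!
# Row p2:VSP (from UN1 RIE RAD DMS VSA VAD VPW)
-/

set_option autoImplicit false
set_option linter.unusedVariables false

open scoped ContDiff Topology ENNReal
open MeasureTheory Filter Set Metric MvPolynomial Pool.Agent.helper37.QA Pool.Agent.P2

namespace Pool.Agent.P2V

/-- integrand -/
noncomputable def VSP_G {d : ℕ} (f : Endo 2 d) (Λ : ℝ) (m N : ℕ) (C : ℝ) (W V : E3) : ℝ :=
  (Psf f Λ m N W - pv f Λ m N W V + C) * tv f N W V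

section one
variable {d : ℕ} {f : Endo 2 d} {Λ : ℝ} {m N : ℕ} {U : Set (PP 2)} {r : ℝ} {Z : ℂ → E3}

theorem VSP_cZ (hZ : Dsc (f.map '' closure U) Z) : ContinuousOn Z (ball 0 1) := hZ.1.continuousOn

theorem VSP_cX (hZ : Dsc (f.map '' closure U) Z) : ContinuousOn (deriv Z) (ball 0 1) :=
  (hZ.1.deriv isOpen_ball).continuousOn

theorem VSP_tvT (W V : E3) : tv f N W V = RIE_T f N W V := rfl

theorem VSP_sl_meas (hZ : Dsc (f.map '' closure U) Z) (A : M3) {g : E3 × E3 → ℝ} (hg : Measurable g) :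
    Measurable (fun z : ℂ => eta z ^ 2 * g (mv A (Z z), mv A (deriv Z z))) := by
  have e1 := VSP_pt_meas (VSP_cZ hZ) (VSP_cX hZ) hg
  have e2 := VSP_comp (fun p : M3 × ℂ => eta p.2 ^ 2 * g (mv p.1 (VSP_e Z p.2), mv p.1 (VSP_e (deriv Z) p.2)))
    (fun z : ℂ => (A, z)) e1 (measurable_const.prodMk measurable_id)
  have e3 : (fun z : ℂ => eta z ^ 2 * g (mv A (Z z), mv A (deriv Z z))) =
      fun z : ℂ => eta z ^ 2 * g (mv A (VSP_e Z z), mv A (VSP_e (deriv Z) z)) :=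
    funext fun z => (VSP_ext Z (deriv Z) (fun W V => g (W, V)) A z).symm
  rw [e3]
  exact e2

theorem VSP_int_pv (hG : Good0 f U) (hR : Rad r (f.map '' closure U) U) (hZ : Dsc (f.map '' closure U) Z)
    {A : M3} (hA : Near r A) (B : ℝ) (hB : ∀ W ∈ cone U, ∀ V, |pv f Λ m N W V| ≤ B) :
    Integrable (fun z => eta z ^ 2 * (pv f Λ m N (mv A (Z z)) (mv A (deriv Z z)) *
      RIE_T f N (mv A (Z z)) (mv A (deriv Z z)))) := by
  have h3 := RIE_eta_int (RIE_slice (RIE_cont2 (N := N) hG hR hZ) hA)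
  have hm := VSP_sl_meas hZ A (g := fun p : E3 × E3 => pv f Λ m N p.1 p.2 * tv f N p.1 p.2)
    ((VSP_pv f Λ m N).mul (VSP_tv f N))
  refine Integrable.mono' (h3.const_mul B) hm.aestronglyMeasurable (Eventually.of_forall fun z => ?_)
  show ‖eta z ^ 2 * (pv f Λ m N (mv A (Z z)) (mv A (deriv Z z)) * RIE_T f N (mv A (Z z)) (mv A (deriv Z z)))‖ ≤
    B * (eta z ^ 2 * RIE_T f N (mv A (Z z)) (mv A (deriv Z z)))
  by_cases hz : z ∈ ball (0 : ℂ) 1
  · have h4 := RIE_T_nonneg f N (mv A (Z z)) (mv A (deriv Z z))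
    have h5 := hB _ (RIE_mem hR hZ hA hz) (mv A (deriv Z z))
    rw [norm_mul, norm_mul, Real.norm_eq_abs, Real.norm_eq_abs, Real.norm_eq_abs, abs_of_nonneg h4,
      abs_of_nonneg (sq_nonneg (eta z))]
    have h6 : 0 ≤ eta z ^ 2 * RIE_T f N (mv A (Z z)) (mv A (deriv Z z)) := mul_nonneg (sq_nonneg _) h4
    calc eta z ^ 2 * (|pv f Λ m N (mv A (Z z)) (mv A (deriv Z z))| * RIE_T f N (mv A (Z z)) (mv A (deriv Z z)))
        = |pv f Λ m N (mv A (Z z)) (mv A (deriv Z z))| *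
          (eta z ^ 2 * RIE_T f N (mv A (Z z)) (mv A (deriv Z z))) := by ring
      _ ≤ B * (eta z ^ 2 * RIE_T f N (mv A (Z z)) (mv A (deriv Z z))) := mul_le_mul_of_nonneg_right h5 h6
  · rw [RIE_eta_zero hz, zero_mul, zero_mul, mul_zero, norm_zero]

theorem VSP_massT (hZ : Dsc (f.map '' closure U) Z) (A : M3) :
    mass f N (fun z => mv A (Z z)) = ∫ z, eta z ^ 2 * RIE_T f N (mv A (Z z)) (mv A (deriv Z z)) := by
  unfold mass
  refine integral_congr_ae (Eventually.of_forall fun z => ?_)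
  have h := RIE_tau_all (N := N) hZ A z 1
  rw [one_mul, one_mul] at h
  exact h

theorem VSP_JfT (hZ : Dsc (f.map '' closure U) Z) (A : M3) (Ψ : E3 → ℝ) :
    Jf f N Ψ (fun z => mv A (Z z)) = (∫ z, eta z ^ 2 * (Ψ (mv A (Z z)) *
      RIE_T f N (mv A (Z z)) (mv A (deriv Z z)))) / mass f N (fun z => mv A (Z z)) := by
  unfold Jf
  congr 1
  refine integral_congr_ae (Eventually.of_forall fun z => ?_)
  exact RIE_tau_all hZ A z _

theorem VSP_TfT (hZ : Dsc (f.map '' closure U) Z) (A : M3) :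
    Tf f Λ m N (fun z => mv A (Z z)) = (∫ z, eta z ^ 2 * (pv f Λ m N (mv A (Z z)) (mv A (deriv Z z)) *
      RIE_T f N (mv A (Z z)) (mv A (deriv Z z)))) / mass f N (fun z => mv A (Z z)) := by
  unfold Tf
  congr 1
  refine integral_congr_ae (Eventually.of_forall fun z => ?_)
  show eta z ^ 2 * (pv f Λ m N (mv A (Z z)) (deriv (fun z => mv A (Z z)) z) * tau f N (fun z => mv A (Z z)) z) =
    eta z ^ 2 * (pv f Λ m N (mv A (Z z)) (mv A (deriv Z z)) * RIE_T f N (mv A (Z z)) (mv A (deriv Z z)))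
  by_cases hz : z ∈ ball (0 : ℂ) 1
  · have hd := hZ.1.differentiableAt (isOpen_ball.mem_nhds hz)
    rw [RIE_tau f N hd A, (RIE_mv_deriv hd A).deriv]
  · rw [RIE_eta_zero hz, zero_mul, zero_mul]

theorem VSP_one (hG : Good0 f U) (hR : Rad r (f.map '' closure U) U) (hZ : Dsc (f.map '' closure U) Z)
    {B B2 Cp M : ℝ} (hAdm : Adm f U N (Psf f Λ m N) B) (hB : ∀ W ∈ cone U, ∀ V, |pv f Λ m N W V| ≤ B2)
    (hCp : 0 ≤ Cp) (hM : 0 < M)
    (hP : ∀ W ∈ cone (f.map '' closure U), ∀ V A, Near r A →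
      0 ≤ Psf f Λ m N (mv A W) - pv f Λ m N (mv A W) (mv A V) + Cp)
    {A : M3} (hA : Near r A) (hmass : M / 2 ≤ mass f N (fun z => mv A (Z z))) :
    ∃ H : ℝ, 0 ≤ H ∧ Jf f N (Psf f Λ m N) (fun z => mv A (Z z)) ≤ Tf f Λ m N (fun z => mv A (Z z)) + 2 / M * H ∧
      ENNReal.ofReal H = ∫⁻ z, ENNReal.ofReal (eta z ^ 2 *
        VSP_G f Λ m N Cp (mv A (VSP_e Z z)) (mv A (VSP_e (deriv Z) z))) := by
  have i1 : Integrable (fun z => eta z ^ 2 * (Psf f Λ m N (mv A (Z z)) *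
      RIE_T f N (mv A (Z z)) (mv A (deriv Z z)))) := RIE_eta_int (RIE_slice (RIE_cont1 hG hR hZ hAdm) hA)
  have i2 := VSP_int_pv (Λ := Λ) (m := m) hG hR hZ hA B2 hB
  have i3 : Integrable (fun z => eta z ^ 2 * RIE_T f N (mv A (Z z)) (mv A (deriv Z z))) :=
    RIE_eta_int (RIE_slice (RIE_cont2 (N := N) hG hR hZ) hA)
  obtain ⟨i4, e4⟩ := VSP_sum (fun z => eta z ^ 2) (fun z => Psf f Λ m N (mv A (Z z)))
    (fun z => pv f Λ m N (mv A (Z z)) (mv A (deriv Z z))) (fun z => RIE_T f N (mv A (Z z)) (mv A (deriv Z z)))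
    Cp i1 i2 i3
  have hnn : ∀ z, 0 ≤ eta z ^ 2 * ((Psf f Λ m N (mv A (Z z)) - pv f Λ m N (mv A (Z z)) (mv A (deriv Z z)) + Cp) *
      RIE_T f N (mv A (Z z)) (mv A (deriv Z z))) := by
    intro z
    by_cases hz : z ∈ ball (0 : ℂ) 1
    · exact mul_nonneg (sq_nonneg _) (mul_nonneg (hP _ (hZ.2 z hz) _ A hA) (RIE_T_nonneg _ _ _ _))
    · rw [RIE_eta_zero hz, zero_mul]
  refine ⟨∫ z, eta z ^ 2 * ((Psf f Λ m N (mv A (Z z)) - pv f Λ m N (mv A (Z z)) (mv A (deriv Z z)) + Cp) *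
      RIE_T f N (mv A (Z z)) (mv A (deriv Z z))), integral_nonneg hnn, ?_, ?_⟩
  · rw [VSP_JfT hZ, VSP_TfT hZ]
    refine VSP_arith _ _ _ _ Cp M hCp hM hmass ?_ (integral_nonneg hnn)
    rw [VSP_massT hZ]
    exact e4
  · rw [ofReal_integral_eq_lintegral_ofReal i4 (Eventually.of_forall hnn)]
    refine lintegral_congr fun z => ?_
    exact congrArg ENNReal.ofReal (VSP_ext Z (deriv Z) (fun W V => VSP_G f Λ m N Cp W V) A z).symm

theorem VSP_mass (hG : Good0 f U) (hR : Rad r (f.map '' closure U) U) (hZ : Dsc (f.map '' closure U) Z)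
    {A : M3} (hA : Near r A) :
    ∫⁻ z, ENNReal.ofReal (eta z ^ 2 * tv f N (mv A (VSP_e Z z)) (mv A (VSP_e (deriv Z) z))) =
      ENNReal.ofReal (mass f N (fun z => mv A (Z z))) := by
  have i3 : Integrable (fun z => eta z ^ 2 * RIE_T f N (mv A (Z z)) (mv A (deriv Z z))) :=
    RIE_eta_int (RIE_slice (RIE_cont2 (N := N) hG hR hZ) hA)
  rw [VSP_massT hZ, ofReal_integral_eq_lintegral_ofReal i3
    (Eventually.of_forall fun z => mul_nonneg (sq_nonneg _) (RIE_T_nonneg _ _ _ _))]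
  refine lintegral_congr fun z => ?_
  exact congrArg ENNReal.ofReal (VSP_ext Z (deriv Z) (fun W V => tv f N W V) A z)

theorem VSP_ton (hZ : Dsc (f.map '' closure U) Z) {Cp : ℝ}
    (hP : ∀ W ∈ cone (f.map '' closure U), ∀ V,
      ∫⁻ A in {A : M3 | Near (r / 8) A}, ENNReal.ofReal ((Psf f Λ m N (mv A W) - pv f Λ m N (mv A W) (mv A V) + Cp) *
        tv f N (mv A W) (mv A V)) ≤
        ENNReal.ofReal Cp * ∫⁻ A in {A : M3 | Near (r / 2) A}, ENNReal.ofReal (tv f N (mv A W) (mv A V))) :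
    ∫⁻ A in {A : M3 | Near (r / 8) A}, ∫⁻ z, ENNReal.ofReal (eta z ^ 2 *
        VSP_G f Λ m N Cp (mv A (VSP_e Z z)) (mv A (VSP_e (deriv Z) z))) ≤
      ENNReal.ofReal Cp * ∫⁻ A in {A : M3 | Near (r / 2) A}, ∫⁻ z, ENNReal.ofReal (eta z ^ 2 *
        tv f N (mv A (VSP_e Z z)) (mv A (VSP_e (deriv Z) z))) := by
  have hg : Measurable (fun p : E3 × E3 => VSP_G f Λ m N Cp p.1 p.2) := by
    have h1 : Measurable (fun p : E3 × E3 => Psf f Λ m N p.1) :=
      VSP_comp (fun W : E3 => Psf f Λ m N W) (fun p : E3 × E3 => p.1) (VSP_Psf f Λ m N) measurable_fst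
    exact ((h1.sub (VSP_pv f Λ m N)).add_const _).mul (VSP_tv f N)
  have m1 : Measurable (fun p : M3 × ℂ => ENNReal.ofReal (eta p.2 ^ 2 *
      VSP_G f Λ m N Cp (mv p.1 (VSP_e Z p.2)) (mv p.1 (VSP_e (deriv Z) p.2)))) :=
    (VSP_pt_meas (VSP_cZ hZ) (VSP_cX hZ) hg).ennreal_ofReal
  have m2 : Measurable (fun p : M3 × ℂ => ENNReal.ofReal (eta p.2 ^ 2 *
      tv f N (mv p.1 (VSP_e Z p.2)) (mv p.1 (VSP_e (deriv Z) p.2)))) :=
    (VSP_pt_meas (VSP_cZ hZ) (VSP_cX hZ) (VSP_tv f N)).ennreal_ofReal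
  rw [lintegral_lintegral_swap (f := fun (A : M3) (z : ℂ) => ENNReal.ofReal (eta z ^ 2 *
      VSP_G f Λ m N Cp (mv A (VSP_e Z z)) (mv A (VSP_e (deriv Z) z)))) m1.aemeasurable,
    lintegral_lintegral_swap (f := fun (A : M3) (z : ℂ) => ENNReal.ofReal (eta z ^ 2 *
      tv f N (mv A (VSP_e Z z)) (mv A (VSP_e (deriv Z) z)))) m2.aemeasurable,
    ← lintegral_const_mul' _ _ ENNReal.ofReal_ne_top]
  refine lintegral_mono fun z => ?_
  by_cases hz : z ∈ ball (0 : ℂ) 1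
  · have e1 : ∀ A : M3, ENNReal.ofReal (eta z ^ 2 * VSP_G f Λ m N Cp (mv A (VSP_e Z z)) (mv A (VSP_e (deriv Z) z))) =
        ENNReal.ofReal (eta z ^ 2) * ENNReal.ofReal ((Psf f Λ m N (mv A (Z z)) -
          pv f Λ m N (mv A (Z z)) (mv A (deriv Z z)) + Cp) * tv f N (mv A (Z z)) (mv A (deriv Z z))) := by
      intro A
      rw [VSP_e_eq Z hz, VSP_e_eq (deriv Z) hz, ENNReal.ofReal_mul (sq_nonneg _)]
      rfl
    have e2 : ∀ A : M3, ENNReal.ofReal (eta z ^ 2 * tv f N (mv A (VSP_e Z z)) (mv A (VSP_e (deriv Z) z))) =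
        ENNReal.ofReal (eta z ^ 2) * ENNReal.ofReal (tv f N (mv A (Z z)) (mv A (deriv Z z))) := by
      intro A
      rw [VSP_e_eq Z hz, VSP_e_eq (deriv Z) hz, ENNReal.ofReal_mul (sq_nonneg _)]
    show ∫⁻ A in {A : M3 | Near (r / 8) A}, ENNReal.ofReal (eta z ^ 2 *
        VSP_G f Λ m N Cp (mv A (VSP_e Z z)) (mv A (VSP_e (deriv Z) z))) ≤
      ENNReal.ofReal Cp * ∫⁻ A in {A : M3 | Near (r / 2) A}, ENNReal.ofReal (eta z ^ 2 *
        tv f N (mv A (VSP_e Z z)) (mv A (VSP_e (deriv Z) z)))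
    rw [lintegral_congr e1, lintegral_congr e2, lintegral_const_mul' _ _ ENNReal.ofReal_ne_top,
      lintegral_const_mul' _ _ ENNReal.ofReal_ne_top, mul_left_comm]
    exact mul_le_mul_right (hP _ (hZ.2 z hz) _) _
  · have e1 : ∀ A : M3, ENNReal.ofReal (eta z ^ 2 * VSP_G f Λ m N Cp (mv A (VSP_e Z z)) (mv A (VSP_e (deriv Z) z))) = 0 := by
      intro A
      rw [RIE_eta_zero hz, zero_mul, ENNReal.ofReal_zero]
    show ∫⁻ A in {A : M3 | Near (r / 8) A}, ENNReal.ofReal (eta z ^ 2 *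
        VSP_G f Λ m N Cp (mv A (VSP_e Z z)) (mv A (VSP_e (deriv Z) z))) ≤ _
    rw [lintegral_congr e1, lintegral_zero]
    exact zero_le

end one

theorem VSP_sub (r : ℝ) (hr : 0 ≤ r) : {A : M3 | Near r A} ⊆ closedBall one3 r := by
  intro A hA
  show dist A one3 ≤ r
  refine (dist_pi_le_iff hr).2 fun k => (dist_pi_le_iff hr).2 fun l => ?_
  rw [dist_eq_norm]
  exact (hA k l).le

theorem VSP_vol (r : ℝ) (hr : 0 ≤ r) : volume {A : M3 | Near r A} ≠ ⊤ :=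
  ne_top_of_le_ne_top (isCompact_closedBall (one3 : M3) r).measure_lt_top.ne (measure_mono (VSP_sub r hr))

theorem VSP_rho {r : ℝ} (hr : 0 < r) : ∃ R : ℝ, 0 ≤ R ∧ ∀ A, rho r A ≤ R := by
  obtain ⟨c, hc⟩ := (isCompact_closedBall (one3 : M3) r).exists_bound_of_continuousOn (RIE_rho_cont r).continuousOn
  refine ⟨max c 0, le_max_right _ _, fun A => ?_⟩
  by_cases h : rho r A = 0
  · rw [h]
    exact le_max_right _ _
  · exact ((le_abs_self _).trans (hc A (VSP_sub r hr.le (RIE_rho_near hr h)))).trans (le_max_left _ _)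

section key
variable {d : ℕ} {f : Endo 2 d} {Λ : ℝ} {m N : ℕ} {U : Set (PP 2)} {r : ℝ} {Z : ℂ → E3}

theorem VSP_lint (hr : 0 < r) (hG : Good0 f U) (hR : Rad r (f.map '' closure U) U)
    (hZ : Dsc (f.map '' closure U) Z) {Cp M R : ℝ} (hM : 0 < M) (hR0 : 0 ≤ R) (hCp : 0 ≤ Cp)
    (hRb : ∀ A, rho (r / 8) A ≤ R)
    (hP : ∀ W ∈ cone (f.map '' closure U), ∀ V,
      ∫⁻ A in {A : M3 | Near (r / 8) A}, ENNReal.ofReal ((Psf f Λ m N (mv A W) - pv f Λ m N (mv A W) (mv A V) + Cp) *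
        tv f N (mv A W) (mv A V)) ≤
        ENNReal.ofReal Cp * ∫⁻ A in {A : M3 | Near (r / 2) A}, ENNReal.ofReal (tv f N (mv A W) (mv A V)))
    (hup : ∀ A, Near r A → mass f N (fun z => mv A (Z z)) ≤ 2 * M) :
    ENNReal.ofReal (2 / M) * ∫⁻ A : M3, ENNReal.ofReal (rho (r / 8) A) * ∫⁻ z, ENNReal.ofReal (eta z ^ 2 *
        VSP_G f Λ m N Cp (mv A (VSP_e Z z)) (mv A (VSP_e (deriv Z) z))) ≤
      ENNReal.ofReal (4 * R * Cp * (volume {A : M3 | Near (r / 2) A}).toReal) := by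
  have h1 : ∫⁻ A : M3, ENNReal.ofReal (rho (r / 8) A) * ∫⁻ z, ENNReal.ofReal (eta z ^ 2 *
        VSP_G f Λ m N Cp (mv A (VSP_e Z z)) (mv A (VSP_e (deriv Z) z))) ≤
      ∫⁻ A in {A : M3 | Near (r / 8) A}, ENNReal.ofReal R * ∫⁻ z, ENNReal.ofReal (eta z ^ 2 *
        VSP_G f Λ m N Cp (mv A (VSP_e Z z)) (mv A (VSP_e (deriv Z) z))) := by
    rw [← lintegral_indicator (RIE_near_open (r / 8)).measurableSet]
    refine lintegral_mono fun A => ?_
    by_cases h : Near (r / 8) A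
    · rw [Set.indicator_of_mem (show A ∈ {A : M3 | Near (r / 8) A} from h)]
      exact mul_le_mul_left (ENNReal.ofReal_le_ofReal (hRb A)) _
    · rw [Set.indicator_of_notMem (show A ∉ {A : M3 | Near (r / 8) A} from h)]
      have h0 : rho (r / 8) A = 0 := by
        by_contra h0
        exact h (RIE_rho_near (by positivity) h0)
      show ENNReal.ofReal (rho (r / 8) A) * _ ≤ 0
      rw [h0, ENNReal.ofReal_zero, zero_mul]
  rw [lintegral_const_mul' _ _ ENNReal.ofReal_ne_top] at h1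
  have h2 := VSP_ton (r := r) hZ hP
  have h3 : ∫⁻ A in {A : M3 | Near (r / 2) A}, ∫⁻ z, ENNReal.ofReal (eta z ^ 2 *
        tv f N (mv A (VSP_e Z z)) (mv A (VSP_e (deriv Z) z))) ≤
      ENNReal.ofReal (2 * M) * volume {A : M3 | Near (r / 2) A} := by
    have h4 : ∫⁻ A in {A : M3 | Near (r / 2) A}, ∫⁻ z, ENNReal.ofReal (eta z ^ 2 *
        tv f N (mv A (VSP_e Z z)) (mv A (VSP_e (deriv Z) z))) ≤
        ∫⁻ A in {A : M3 | Near (r / 2) A}, ENNReal.ofReal (2 * M) := by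
      refine setLIntegral_mono' (RIE_near_open (r / 2)).measurableSet fun A hA => ?_
      have hA' : Near r A := RIE_near_mono (by linarith) hA
      rw [VSP_mass hG hR hZ hA']
      exact ENNReal.ofReal_le_ofReal (hup A hA')
    rw [setLIntegral_const] at h4
    exact h4
  have hV : volume {A : M3 | Near (r / 2) A} = ENNReal.ofReal ((volume {A : M3 | Near (r / 2) A}).toReal) :=
    (ENNReal.ofReal_toReal (VSP_vol (r / 2) (by positivity))).symm
  set V : ℝ := (volume {A : M3 | Near (r / 2) A}).toReal with hVdef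
  have hV0 : 0 ≤ V := ENNReal.toReal_nonneg
  calc ENNReal.ofReal (2 / M) * ∫⁻ A : M3, ENNReal.ofReal (rho (r / 8) A) * ∫⁻ z, ENNReal.ofReal (eta z ^ 2 *
        VSP_G f Λ m N Cp (mv A (VSP_e Z z)) (mv A (VSP_e (deriv Z) z)))
      ≤ ENNReal.ofReal (2 / M) * (ENNReal.ofReal R * (ENNReal.ofReal Cp * (ENNReal.ofReal (2 * M) * ENNReal.ofReal V))) := by
        refine mul_le_mul_right (h1.trans (mul_le_mul_right (h2.trans (mul_le_mul_right ?_ _)) _)) _
        rw [← hV]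
        exact h3
    _ = ENNReal.ofReal (4 * R * Cp * V) := by
        rw [← ENNReal.ofReal_mul (by positivity), ← ENNReal.ofReal_mul hCp, ← ENNReal.ofReal_mul hR0,
          ← ENNReal.ofReal_mul (by positivity)]
        congr 1
        field_simp
        ring

theorem VSP_key (hr : 0 < r) (hG : Good0 f U) (hR : Rad r (f.map '' closure U) U)
    (hZ : Dsc (f.map '' closure U) Z) {B B2 Cp M R b : ℝ} (hAdm : Adm f U N (Psf f Λ m N) B) (hB0 : 0 ≤ B)
    (hB : ∀ W ∈ cone U, ∀ V, |pv f Λ m N W V| ≤ B2)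
    (hCp : 0 ≤ Cp) (hM : 0 < M)
    (hP : ∀ W ∈ cone (f.map '' closure U), ∀ V A, Near r A →
      0 ≤ Psf f Λ m N (mv A W) - pv f Λ m N (mv A W) (mv A V) + Cp)
    (hP2 : ∀ W ∈ cone (f.map '' closure U), ∀ V,
      ∫⁻ A in {A : M3 | Near (r / 8) A}, ENNReal.ofReal ((Psf f Λ m N (mv A W) - pv f Λ m N (mv A W) (mv A V) + Cp) *
        tv f N (mv A W) (mv A V)) ≤
        ENNReal.ofReal Cp * ∫⁻ A in {A : M3 | Near (r / 2) A}, ENNReal.ofReal (tv f N (mv A W) (mv A V)))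
    (hR0 : 0 ≤ R) (hRb : ∀ A, rho (r / 8) A ≤ R)
    (hlow : ∀ A, Near r A → M / 2 ≤ mass f N (fun z => mv A (Z z)))
    (hup : ∀ A, Near r A → mass f N (fun z => mv A (Z z)) ≤ 2 * M)
    (hT : ∀ A, Near r A → Tf f Λ m N (fun z => mv A (Z z)) ≤ b) :
    (∫ A, rho (r / 8) A * Jf f N (Psf f Λ m N) (fun z => mv A (Z z))) ≤
      b + 4 * R * Cp * (volume {A : M3 | Near (r / 2) A}).toReal := by
  have hr8 : 0 < r / 8 := by positivity
  have hn : ∀ A : M3, rho (r / 8) A ≠ 0 → Near r A := fun A hA =>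
    RIE_near_mono (by linarith) (RIE_rho_near hr8 hA)
  have e : (∫ A, rho (r / 8) A * Jf f N (Psf f Λ m N) (fun z => mv A (Z z))) =
      ∫ A, rho (r / 8) A * RIE_J f N r Z (Psf f Λ m N) A := by
    refine integral_congr_ae (Eventually.of_forall fun A => ?_)
    show rho (r / 8) A * Jf f N (Psf f Λ m N) (fun z => mv A (Z z)) = rho (r / 8) A * RIE_J f N r Z (Psf f Λ m N) A
    by_cases h : rho (r / 8) A = 0
    · rw [h, zero_mul, zero_mul]
    · rw [RIE_J_eq hZ (hn A h)]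
  rw [e]
  set B' : ℝ := max B (-b) with hB'
  have hBB : B ≤ B' := le_max_left _ _
  have hbB : 0 ≤ b + B' := by
    have := le_max_right B (-b)
    linarith
  have hconv := (RIE_conv (rho (r / 8)) (RIE_J f N r Z (Psf f Λ m N)) (RIE_rho_integrable hr8)
    (RIE_rho_nonneg _) (RIE_rho_int hr8) (RIE_J_meas hG hR hZ hAdm) B'
    (fun A => ENNReal.ofReal (RIE_J f N r Z (Psf f Λ m N) A + B'))
    (fun A hA => ⟨(RIE_J_bound hG hR hZ hAdm hB0 (hn A hA)).trans hBB, rfl⟩)).1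
  have hle : ∫⁻ A : M3, ENNReal.ofReal (rho (r / 8) A) * ENNReal.ofReal (RIE_J f N r Z (Psf f Λ m N) A + B') ≤
      ∫⁻ A : M3, (ENNReal.ofReal (rho (r / 8) A) * ENNReal.ofReal (b + B') +
        ENNReal.ofReal (2 / M) * (ENNReal.ofReal (rho (r / 8) A) * ∫⁻ z, ENNReal.ofReal (eta z ^ 2 *
          VSP_G f Λ m N Cp (mv A (VSP_e Z z)) (mv A (VSP_e (deriv Z) z))))) := by
    refine lintegral_mono fun A => ?_
    by_cases h : rho (r / 8) A = 0
    · rw [h, ENNReal.ofReal_zero, zero_mul]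
      exact zero_le
    · have hA := hn A h
      obtain ⟨H, hH0, hJ, hH⟩ := VSP_one hG hR hZ hAdm hB hCp hM hP hA (hlow A hA)
      rw [← hH, ← RIE_J_eq hZ hA]
      have h5 : Jf f N (Psf f Λ m N) (fun z => mv A (Z z)) + B' ≤ (b + B') + 2 / M * H := by
        have := hT A hA
        linarith
      calc ENNReal.ofReal (rho (r / 8) A) * ENNReal.ofReal (Jf f N (Psf f Λ m N) (fun z => mv A (Z z)) + B')
          ≤ ENNReal.ofReal (rho (r / 8) A) * (ENNReal.ofReal (b + B') + ENNReal.ofReal (2 / M) * ENNReal.ofReal H) := by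
            refine mul_le_mul_right ?_ _
            rw [← ENNReal.ofReal_mul (by positivity)]
            exact (ENNReal.ofReal_le_ofReal h5).trans ENNReal.ofReal_add_le
        _ = _ := by ring
  rw [lintegral_add_left ((RIE_rho_cont _).measurable.ennreal_ofReal.mul_const _),
    lintegral_mul_const' _ _ ENNReal.ofReal_ne_top, RIE_rho_lint hr8, one_mul,
    lintegral_const_mul' _ _ ENNReal.ofReal_ne_top] at hle
  have hl := VSP_lint (Λ := Λ) (m := m) hr hG hR hZ hM hR0 hCp hRb hP2 hup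
  rw [hconv] at hle
  have h6 := hle.trans (add_le_add_right hl _)
  have hV0 : 0 ≤ (volume {A : M3 | Near (r / 2) A}).toReal := ENNReal.toReal_nonneg
  rw [← ENNReal.ofReal_add hbB (by positivity), ENNReal.ofReal_le_ofReal_iff (by positivity)] at h6
  linarith

end key

theorem VSP (hUN1 : UN1_stmt) (hRIE : RIE_stmt) (hRAD : RAD_stmt) (hDMS : DMS_stmt) (hVSA : VSA_stmt)
    (hVAD : VAD_stmt) (hVPW : VPW_stmt) : VSP_stmt := by
  intro d f U r hd hG hr hr1 hR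
  obtain ⟨Cr, hCr1, hRIE'⟩ := hRIE d f U r hd hG hr hr1 hR
  obtain ⟨Cd, hCd0, hD1, -, -, -⟩ := hDMS d f U r hd hG hr hr1 hR
  obtain ⟨Cs, hCs1, hSA⟩ := hVSA d f U hd hG
  obtain ⟨Ca, hCa1, hAD⟩ := hVAD d f U hd hG
  obtain ⟨Cp, hCp1, hPW⟩ := hVPW d f U r hd hG hr hr1 hR
  obtain ⟨R, hR0, hRb⟩ := VSP_rho (r := r / 8) (by positivity)
  set V : ℝ := (volume {A : M3 | Near (r / 2) A}).toReal with hV
  have hV0 : 0 ≤ V := ENNReal.toReal_nonneg
  have hK : 0 ≤ 4 * R * Cp * V := by positivity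
  have hCrCa : Cr ≤ Cr * Ca := by nlinarith
  refine ⟨Cr * Ca + 2 * Cd + 4 * R * Cp * V + 1, by nlinarith, ?_⟩
  intro Λ m N Z hΛ hmN hZ hM
  set C1 : ℝ := Cr * Ca + 2 * Cd + 4 * R * Cp * V + 1 with hC1
  set M : ℝ := mass f N Z with hMdef
  have hM0 : 0 < M := by nlinarith
  have hMr : Cr ≤ M := by nlinarith
  have hMd : 2 * Cd ≤ M := by nlinarith
  have hm0 : (0 : ℝ) ≤ m := Nat.cast_nonneg m
  have hB1 : 1 ≤ (Ca + Λ) * (m + 1) := by nlinarith
  have hAdm := hAD Λ m N hΛ hmN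
  have h1 := (hRIE' N (Psf f Λ m N) _ Z hAdm hB1 hZ hMr).1
  by_contra hcon
  push Not at hcon
  have hx : 0 < M ^ (-(1 / 2) : ℝ) := Real.rpow_pos_of_pos hM0 _
  have hnear : ∀ A, Near r A → |mass f N (fun z => mv A (Z z)) - M| ≤ Cd := fun A hA => hD1 N Z A hZ hA
  have key := VSP_key (b := Jf f N (Psf f Λ m N) Z - C1 - C1 * (1 + Λ) * (m + 1) * M ^ (-(1 / 2) : ℝ))
    (B2 := (Cs + Λ) * (m + 1)) (Cp := Cp) (M := M) (R := R) hr hG hR hZ hAdm (by linarith)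
    (fun W hW V => (hSA Λ m 0 N hΛ hmN W hW V).2.2.2.2) (by linarith) hM0
    (fun W hW V A hA => (hPW Λ m N hΛ hmN W hW V).1 A hA)
    (fun W hW V => (hPW Λ m N hΛ hmN W hW V).2) hR0 hRb
    (fun A hA => by have := (abs_le.1 (hnear A hA)).1; linarith)
    (fun A hA => by have := (abs_le.1 (hnear A hA)).2; linarith)
    (fun A hA => by have := hcon A hA; linarith)
  have h2 : Cr * ((Ca + Λ) * (m + 1)) ≤ C1 * (1 + Λ) * (m + 1) := by
    have h3 : Cr * (Ca + Λ) ≤ C1 * (1 + Λ) := by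
      have h4 : Cr * (Ca + Λ) ≤ Cr * Ca * (1 + Λ) := by
        have h5 : Λ ≤ Ca * Λ := by nlinarith
        nlinarith
      have h6 : Cr * Ca * (1 + Λ) ≤ C1 * (1 + Λ) := by
        refine mul_le_mul_of_nonneg_right ?_ (by linarith)
        linarith
      linarith
    calc Cr * ((Ca + Λ) * (m + 1)) = Cr * (Ca + Λ) * (m + 1) := by ring
      _ ≤ C1 * (1 + Λ) * (m + 1) := mul_le_mul_of_nonneg_right h3 (by linarith)
  have h3 : Cr * ((Ca + Λ) * (m + 1)) * M ^ (-(1 / 2) : ℝ) ≤ C1 * (1 + Λ) * (m + 1) * M ^ (-(1 / 2) : ℝ) :=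
    mul_le_mul_of_nonneg_right h2 hx.le
  have h4 : 4 * R * Cp * V < C1 := by nlinarith
  linarith

end Pool.Agent.P2V
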