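import Pool.Agent.helper83.P2.SpecV
import Pool.Agent.helper43.P2.RIEc

/-!
# Row p2:VSP, part A: measurability and one matrix
-/

set_option autoImplicit false

open scoped ContDiff Topology ENNReal
open MeasureTheory Filter Set Metric MvPolynomial Pool.Agent.helper37.QA Pool.Agent.P2

namespace Pool.Agent.P2V

section meas
variable {d : ℕ} (f : Endo 2 d) (Λ : ℝ) (m N : ℕ)

theorem VSP_nq : Continuous (fun v : E3 => nq v) := by
  unfold nq
  exact continuous_finsetSum _ fun i _ => Complex.continuous_normSq.comp (continuous_apply i)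

theorem VSP_crs : Continuous (fun p : E3 × E3 => crs p.1 p.2) := by
  have h1 : ∀ i : Fin 3, Continuous (fun p : E3 × E3 => p.1 i) := fun i =>
    (continuous_apply i).comp continuous_fst
  have h2 : ∀ i : Fin 3, Continuous (fun p : E3 × E3 => p.2 i) := fun i =>
    (continuous_apply i).comp continuous_snd
  refine continuous_pi fun i => ?_
  fin_cases i
  · exact ((h1 1).mul (h2 2)).sub ((h1 2).mul (h2 1))
  · exact ((h1 2).mul (h2 0)).sub ((h1 0).mul (h2 2))
  · exact ((h1 0).mul (h2 1)).sub ((h1 1).mul (h2 0))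

theorem VSP_fd : Continuous (fun p : E3 × E3 => fderiv ℂ (It f m) p.1 p.2) := by
  have h : ContDiff ℂ 1 (It f m) := contDiff_pi.2 fun i => RIE_It_cd f m i
  exact h.continuous_fderiv_apply one_ne_zero

theorem VSP_Itc : Continuous (fun p : E3 × E3 => It f m p.1) :=
  (RIE_It_cont f m).comp continuous_fst

theorem VSP_num : Continuous (fun p : E3 × E3 => nq (crs (It f m p.1) (fderiv ℂ (It f m) p.1 p.2))) :=
  RIE_compc (fun v : E3 => nq v) (fun p : E3 × E3 => crs (It f m p.1) (fderiv ℂ (It f m) p.1 p.2)) VSP_nq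
    (RIE_compc (fun q : E3 × E3 => crs q.1 q.2) (fun p : E3 × E3 => (It f m p.1, fderiv ℂ (It f m) p.1 p.2))
      VSP_crs ((VSP_Itc f m).prodMk (VSP_fd f m)))

theorem VSP_den : Continuous (fun p : E3 × E3 => nq (crs p.1 p.2)) :=
  RIE_compc (fun v : E3 => nq v) (fun p : E3 × E3 => crs p.1 p.2) VSP_nq VSP_crs

theorem VSP_un : Measurable (fun W : E3 => un f N W) := by
  unfold un
  exact (((RIE_pq_cont f N).measurable.log).const_mul _).div_const _

theorem VSP_comp {X Y : Type} [MeasurableSpace X] [MeasurableSpace Y] (g : Y → ℝ) (G : X → Y)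
    (hg : Measurable g) (hG : Measurable G) : Measurable (fun p => g (G p)) :=
  hg.comp hG

theorem VSP_term (i : Fin 3) :
    Measurable (fun W : E3 => nq (crs (It f m W) (fderiv ℂ (It f m) W (Pi.single i 1)))) :=
  VSP_comp (fun p : E3 × E3 => nq (crs (It f m p.1) (fderiv ℂ (It f m) p.1 p.2)))
    (fun W : E3 => (W, (Pi.single i 1 : E3))) (VSP_num f m).measurable
    (measurable_id.prodMk measurable_const)

theorem VSP_hop : Measurable (fun W : E3 => hop f m N W) := by
  have h1 : Measurable (fun W : E3 => nq W) := VSP_nq.measurable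
  have h2 : Measurable (fun W : E3 => ∑ i : Fin 3, nq (crs (It f m W) (fderiv ℂ (It f m) W (Pi.single i 1)))) :=
    Finset.measurable_sum _ fun i _ => VSP_term f m i
  have h3 : Measurable (fun W : E3 => Real.exp (-(4 * (d : ℝ) ^ m * un f N W))) :=
    Real.measurable_exp.comp (((VSP_un f N).const_mul _).neg)
  exact (h1.mul h2).mul h3

theorem VSP_Psf : Measurable (fun W : E3 => Psf f Λ m N W) := by
  have h4 : Measurable (fun W : E3 => hop f m N W + Real.exp (-(Λ * m))) := (VSP_hop f m N).add_const _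
  exact Real.measurable_log.comp h4

theorem VSP_Rv : Measurable (fun p : E3 × E3 => Rv f m N p.1 p.2) := by
  have h0 : Measurable (fun p : E3 × E3 => un f N p.1) :=
    VSP_comp (fun W : E3 => un f N W) (fun p : E3 × E3 => p.1) (VSP_un f N) measurable_fst
  have h3 : Measurable (fun p : E3 × E3 => Real.exp (4 * un f N p.1 - 4 * (d : ℝ) ^ m * un f N p.1)) :=
    Real.measurable_exp.comp ((h0.const_mul _).sub (h0.const_mul _))
  exact ((VSP_num f m).measurable.div VSP_den.measurable).mul h3

theorem VSP_pv : Measurable (fun p : E3 × E3 => pv f Λ m N p.1 p.2) := by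
  have h4 : Measurable (fun p : E3 × E3 => Rv f m N p.1 p.2 + Real.exp (-(Λ * m))) :=
    (VSP_Rv f m N).add_const _
  exact Real.measurable_log.comp h4

theorem VSP_tv : Measurable (fun p : E3 × E3 => tv f N p.1 p.2) := by
  have h1 : Measurable (fun p : E3 × E3 => Complex.normSq (cc f N p.1 p.2)) :=
    VSP_comp (fun c : ℂ => Complex.normSq c) (fun p : E3 × E3 => cc f N p.1 p.2)
      Complex.continuous_normSq.measurable (RIE_cc_cont f N).measurable
  have h2 : Measurable (fun p : E3 × E3 => pq (It f N p.1)) :=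
    VSP_comp (fun W : E3 => pq (It f N W)) (fun p : E3 × E3 => p.1) (RIE_pq_cont f N).measurable measurable_fst
  exact ((h1.const_mul _).div (h2.pow_const 2)).div_const _

end meas

open Classical in
/-- extension by zero -/
noncomputable def VSP_e (h : ℂ → E3) : ℂ → E3 := (ball (0 : ℂ) 1).piecewise h (fun _ => 0)

theorem VSP_e_meas {h : ℂ → E3} (hh : ContinuousOn h (ball 0 1)) : Measurable (VSP_e h) := by
  classical
  unfold VSP_e
  exact hh.measurable_piecewise continuousOn_const isOpen_ball.measurableSet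

theorem VSP_e_eq (h : ℂ → E3) {z : ℂ} (hz : z ∈ ball (0 : ℂ) 1) : VSP_e h z = h z := by
  classical
  unfold VSP_e
  exact Set.piecewise_eq_of_mem _ _ _ hz

theorem VSP_ext (Z X : ℂ → E3) (g : E3 → E3 → ℝ) (A : M3) (z : ℂ) :
    eta z ^ 2 * g (mv A (VSP_e Z z)) (mv A (VSP_e X z)) = eta z ^ 2 * g (mv A (Z z)) (mv A (X z)) := by
  by_cases hz : z ∈ ball (0 : ℂ) 1
  · rw [VSP_e_eq Z hz, VSP_e_eq X hz]
  · rw [RIE_eta_zero hz, zero_mul, zero_mul]

theorem VSP_pt_meas {Z X : ℂ → E3} (hZ : ContinuousOn Z (ball 0 1)) (hX : ContinuousOn X (ball 0 1))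
    {g : E3 × E3 → ℝ} (hg : Measurable g) :
    Measurable (fun p : M3 × ℂ => eta p.2 ^ 2 * g (mv p.1 (VSP_e Z p.2), mv p.1 (VSP_e X p.2))) := by
  have h1 : Measurable (fun p : M3 × ℂ => mv p.1 (VSP_e Z p.2)) :=
    (RIE_mv_cont.measurable).comp (measurable_fst.prodMk ((VSP_e_meas hZ).comp measurable_snd))
  have h2 : Measurable (fun p : M3 × ℂ => mv p.1 (VSP_e X p.2)) :=
    RIE_mv_cont.measurable.comp (measurable_fst.prodMk ((VSP_e_meas hX).comp measurable_snd))
  exact (DMS_eta.1.continuous.measurable.comp measurable_snd).mul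
    (VSP_comp g (fun p : M3 × ℂ => (mv p.1 (VSP_e Z p.2), mv p.1 (VSP_e X p.2))) hg (h1.prodMk h2))

/-! ### Ratios -/

theorem VSP_sum (η ψ p t : ℂ → ℝ) (C : ℝ) (h1 : Integrable (fun z => η z * (ψ z * t z)))
    (h2 : Integrable (fun z => η z * (p z * t z))) (h3 : Integrable (fun z => η z * t z)) :
    Integrable (fun z => η z * ((ψ z - p z + C) * t z)) ∧
      ∫ z, η z * ((ψ z - p z + C) * t z) =
        (∫ z, η z * (ψ z * t z)) - (∫ z, η z * (p z * t z)) + C * ∫ z, η z * t z := by
  have e : (fun z => η z * ((ψ z - p z + C) * t z)) =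
      fun z => (η z * (ψ z * t z) - η z * (p z * t z)) + C * (η z * t z) := by
    funext z; ring
  constructor
  · rw [e]
    exact (h1.sub h2).add (h3.const_mul C)
  · rw [e]
    have i1 : Integrable (fun z => η z * (ψ z * t z) - η z * (p z * t z)) := h1.sub h2
    have i2 : Integrable (fun z => C * (η z * t z)) := h3.const_mul C
    rw [integral_add i1 i2, integral_sub h1 h2, integral_const_mul]

theorem VSP_arith (a b D H C M : ℝ) (hC : 0 ≤ C) (hM : 0 < M) (hD : M / 2 ≤ D) (hH : H = a - b + C * D)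
    (hH0 : 0 ≤ H) : a / D ≤ b / D + 2 / M * H := by
  have hD0 : 0 < D := by linarith
  have h1 : a / D = b / D + H / D - C := by
    rw [hH]; field_simp; ring
  have h2 : H / D ≤ 2 / M * H := by
    rw [div_le_iff₀ hD0]
    have h3 : 1 ≤ 2 / M * D := by
      rw [div_mul_eq_mul_div, le_div_iff₀ hM]; linarith
    nlinarith
  linarith

end Pool.Agent.P2V
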